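import Mathlib
import Pool.Agent.Lib.helper12.BCH

set_option autoImplicit false

open Pointwise Matrix

namespace Pool.Agent.Results.MP_c7d842_co.Counter

open Pool.Agent.Lib.helper12.BCH

/-- the real point given by a lattice point -/
def latt {ι : Type} (u : ι → ℤ) : ι → ℝ := fun i => (u i : ℝ)

/-- the lattice polytope spanned by a finite set of lattice points -/
def hull {ι : Type} (V : Finset (ι → ℤ)) : Set (ι → ℝ) :=
  convexHull ℝ (latt '' (V : Set (ι → ℤ)))

/-- `P ⊂ ℝ^d` has degree `s`: the least `k ≥ 1` such that `kP` has an interior lattice point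
is `d + 1 - s` -/
def HasDegree {d : ℕ} (P : Set (Fin d → ℝ)) (s : ℕ) : Prop :=
  s ≤ d ∧ IsLeast {k : ℕ | 1 ≤ k ∧ ∃ x : Fin d → ℤ, latt x ∈ interior ((k : ℝ) • P)} (d + 1 - s)

/-- `e_0 = 0` and the standard basis vectors `e_1, …, e_k` of `ℝ^k` -/
def unitE (k : ℕ) (j : Fin (k + 1)) : Fin k → ℝ := fun l => if j = l.succ then 1 else 0

/-- the Cayley polytope of `P_0, …, P_k ⊂ ℝ^m` inside `ℝ^m × ℝ^k` -/
def cayley (m k : ℕ) (Q : Fin (k + 1) → Finset (Fin m → ℤ)) : Set (Fin m ⊕ Fin k → ℝ) :=
  convexHull ℝ (⋃ j, (fun p => Sum.elim p (unitE k j)) '' hull (Q j))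

/-- `P` is lattice equivalent to a Cayley polytope of `k + 1` (nonempty) lattice polytopes -/
def IsCayley {d : ℕ} (P : Set (Fin d → ℝ)) (k : ℕ) : Prop :=
  ∃ (m : ℕ) (Q : Fin (k + 1) → Finset (Fin m → ℤ)), (∀ j, (Q j).Nonempty) ∧
    ∃ (U : Matrix (Fin m ⊕ Fin k) (Fin d) ℤ) (U' : Matrix (Fin d) (Fin m ⊕ Fin k) ℤ)
      (t : Fin m ⊕ Fin k → ℤ), U * U' = 1 ∧ U' * U = 1 ∧
      (fun x => (U.map (fun z : ℤ => (z : ℝ))) *ᵥ x + latt t) '' P = cayley m k Q

/-- coordinate index set -/
abbrev I : Type := Fin (14 + 112)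

/-- the non-identity block of the generator matrix -/
def A (i : Fin 14) (j : Fin 112) : ℤ := g (14 + j) i

/-- the nonzero vertices -/
def vert : I → I → ℤ :=
  Fin.addCases
    (fun i => Fin.addCases (fun i' => if i' = i then 2 else 0) (fun j => -A i j))
    (fun j => Fin.addCases (fun _ => 0) (fun j' => if j' = j then 1 else 0))

/-- all vertices -/
def W : Option I → I → ℤ
  | none => 0
  | some a => vert a

/-- the vertex set -/
def V0 : Finset (I → ℤ) := Finset.univ.image W

/-- doubled barycentric coordinates -/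
noncomputable def mu : I → (I → ℝ) →ₗ[ℝ] ℝ :=
  Fin.addCases (fun i => LinearMap.proj (Fin.castAdd 112 i))
    (fun j => (2 : ℝ) • LinearMap.proj (Fin.natAdd 14 j) +
      ∑ i : Fin 14, (A i j : ℝ) • LinearMap.proj (Fin.castAdd 112 i))

theorem mu_left (i : Fin 14) (x : I → ℝ) : mu (Fin.castAdd 112 i) x = x (Fin.castAdd 112 i) := by
  simp only [mu, Fin.addCases_left, LinearMap.proj_apply]

theorem mu_right (j : Fin 112) (x : I → ℝ) : mu (Fin.natAdd 14 j) x =
    2 * x (Fin.natAdd 14 j) + ∑ i : Fin 14, (A i j : ℝ) * x (Fin.castAdd 112 i) := by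
  simp only [mu, Fin.addCases_right, LinearMap.add_apply, LinearMap.smul_apply,
    LinearMap.proj_apply, smul_eq_mul, LinearMap.coe_sum, Finset.sum_apply]

theorem left_ne_right (i : Fin 14) (j : Fin 112) : Fin.castAdd 112 i ≠ Fin.natAdd 14 j := by
  intro h
  have := congrArg Fin.val h
  simp only [Fin.val_castAdd, Fin.val_natAdd] at this
  omega

theorem mu_vert (a b : I) : mu b (latt (vert a)) = if b = a then 2 else 0 := by
  induction a using Fin.addCases with
  | left i =>
    induction b using Fin.addCases with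
    | left i' =>
      rw [mu_left]
      simp only [latt, vert, Fin.addCases_left, Fin.castAdd_inj]
      split_ifs <;> simp
    | right j =>
      rw [mu_right, if_neg (left_ne_right i j).symm]
      simp only [latt, vert, Fin.addCases_left, Fin.addCases_right]
      rw [Finset.sum_eq_single i]
      · simp; ring
      · intro b _ hb; simp [hb]
      · simp
  | right j =>
    induction b using Fin.addCases with
    | left i' =>
      rw [mu_left, if_neg (left_ne_right i' j)]
      simp only [latt, vert, Fin.addCases_left, Fin.addCases_right]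
      simp
    | right j' =>
      rw [mu_right]
      simp only [latt, vert, Fin.addCases_left, Fin.addCases_right, Fin.natAdd_inj]
      split_ifs <;> simp

theorem recon (x : I → ℝ) : x = ∑ a : I, (mu a x / 2) • latt (vert a) := by
  funext b
  rw [Finset.sum_apply, Fin.sum_univ_add]
  simp only [Pi.smul_apply, smul_eq_mul, mu_left, mu_right, latt, vert, Fin.addCases_left,
    Fin.addCases_right]
  induction b using Fin.addCases with
  | left i =>
    simp only [Fin.addCases_left]
    rw [Finset.sum_eq_single i]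
    · simp
    · intro b _ hb; simp [Ne.symm hb]
    · simp
  | right j =>
    simp only [Fin.addCases_right]
    rw [Finset.sum_eq_single j (s := Finset.univ) (f := fun j' : Fin 112 =>
      (2 * x (Fin.natAdd 14 j') + ∑ i : Fin 14, (A i j' : ℝ) * x (Fin.castAdd 112 i)) / 2 *
        ((if j = j' then (1 : ℤ) else 0 : ℤ) : ℝ))]
    · simp only [if_true, Int.cast_one, mul_one, Int.cast_neg, add_div, Finset.sum_div]
      rw [add_comm (2 * x _ / 2), ← add_assoc, ← Finset.sum_add_distrib]
      rw [Finset.sum_eq_zero (fun i _ => by ring)]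
      ring
    · intro b _ hb; simp [Ne.symm hb]
    · simp

theorem W_mem (a : Option I) : latt (W a) ∈ hull V0 :=
  subset_convexHull _ _ ⟨W a, by simp [V0], rfl⟩

theorem latt_zero {ι : Type} : latt (0 : ι → ℤ) = 0 := by
  funext i; simp [latt]

theorem hull_eq : hull V0 = {x | (∀ b, 0 ≤ mu b x) ∧ ∑ b, mu b x ≤ 2} := by
  apply Set.Subset.antisymm
  · apply convexHull_min
    · rintro _ ⟨v, hv, rfl⟩
      simp only [V0, Finset.coe_image, Set.mem_image] at hv
      obtain ⟨a, _, rfl⟩ := hv
      cases a with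
      | none => simp [W, latt_zero]
      | some a =>
        refine ⟨fun b => ?_, ?_⟩
        · simp only [W, mu_vert]; split_ifs <;> norm_num
        · simp [W, mu_vert]
    · rintro x ⟨x1, x2⟩ y ⟨y1, y2⟩ a b ha hb hab
      refine ⟨fun c => ?_, ?_⟩
      · rw [map_add, map_smul, map_smul]
        exact add_nonneg (mul_nonneg ha (x1 c)) (mul_nonneg hb (y1 c))
      · simp only [map_add, map_smul, smul_eq_mul, Finset.sum_add_distrib, ← Finset.mul_sum]
        nlinarith
  · rintro x ⟨x1, x2⟩
    have := (convex_convexHull ℝ (latt '' (V0 : Set (I → ℤ)))).sum_mem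
      (t := (Finset.univ : Finset (Option I)))
      (w := fun a => a.elim (1 - ∑ b, mu b x / 2) (fun b => mu b x / 2))
      (z := fun a => latt (W a)) ?_ ?_ (fun a _ => W_mem a)
    · rw [Fintype.sum_option] at this
      simp only [W, latt_zero, smul_zero, zero_add, Option.elim] at this
      rw [← recon] at this
      exact this
    · intro a _
      cases a with
      | none =>
        simp only [Option.elim]
        rw [← Finset.sum_div]
        linarith
      | some b =>
        simp only [Option.elim]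
        have := x1 b
        linarith
    · rw [Fintype.sum_option]
      simp [Option.elim]

theorem smul_hull {k : ℝ} (hk : 0 < k) :
    k • hull V0 = {x | (∀ b, 0 ≤ mu b x) ∧ ∑ b, mu b x ≤ 2 * k} := by
  ext x
  rw [Set.mem_smul_set_iff_inv_smul_mem₀ hk.ne', hull_eq]
  simp only [Set.mem_ofPred_eq, map_smul, smul_eq_mul, ← Finset.mul_sum]
  have hi : 0 < k⁻¹ := inv_pos.mpr hk
  rw [inv_mul_le_iff₀ hk, mul_comm k 2]
  simp only [mul_nonneg_iff_of_pos_left hi]

theorem strict {E : Type} [NormedAddCommGroup E] [NormedSpace ℝ E] (φ : E →ₗ[ℝ] ℝ) (v : E)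
    (hv : 0 < φ v) (c : ℝ) (S : Set E) (hS : ∀ x ∈ S, c ≤ φ x) (x : E) (hx : x ∈ interior S) :
    c < φ x := by
  have hc : Continuous (fun t : ℝ => x - t • v) := by fun_prop
  have h1 : ∀ᶠ t in nhds (0 : ℝ), x - t • v ∈ S := by
    apply hc.continuousAt.eventually_mem
    simpa using mem_interior_iff_mem_nhds.mp hx
  obtain ⟨t, ht, h0⟩ := ((h1.filter_mono (nhdsWithin_le_nhds (s := Set.Ioi 0))).and
    self_mem_nhdsWithin).exists
  have := hS _ ht
  rw [map_sub, map_smul, smul_eq_mul] at this
  have h0' : 0 < t := h0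
  nlinarith

theorem interior_smul_hull {k : ℝ} (hk : 0 < k) (x : I → ℝ) :
    x ∈ interior (k • hull V0) ↔ (∀ b, 0 < mu b x) ∧ ∑ b, mu b x < 2 * k := by
  rw [smul_hull hk]
  constructor
  · intro hx
    refine ⟨fun b => strict (mu b) (latt (vert b)) (by simp [mu_vert]) 0 _
      (fun y hy => hy.1 b) x hx, ?_⟩
    have := strict (-∑ b, mu b) (-latt (vert (Fin.castAdd 112 0)))
      (by simp [LinearMap.coe_sum, mu_vert]) (-(2 * k)) _
      (fun y hy => by simpa [LinearMap.coe_sum] using hy.2) x hx
    simpa [LinearMap.coe_sum] using this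
  · intro hx
    have hc : ∀ b, Continuous (mu b) := fun b => LinearMap.continuous_of_finiteDimensional _
    have ho : IsOpen {x : I → ℝ | (∀ b, 0 < mu b x) ∧ ∑ b, mu b x < 2 * k} := by
      apply IsOpen.inter
      · have : IsOpen (⋂ b, {x : I → ℝ | 0 < mu b x}) :=
          isOpen_iInter_of_finite (fun b => isOpen_lt continuous_const (hc b))
        convert this using 1
        ext y
        simp [Set.mem_iInter]
        rfl
      · exact isOpen_lt (continuous_finsetSum _ (fun b _ => hc b)) continuous_const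
    refine interior_maximal ?_ ho hx
    intro y hy
    exact ⟨fun b => (hy.1 b).le, hy.2.le⟩

/-- integer version of `mu` -/
def nu (x : I → ℤ) : I → ℤ :=
  Fin.addCases (fun i => x (Fin.castAdd 112 i))
    (fun j => 2 * x (Fin.natAdd 14 j) + ∑ i : Fin 14, A i j * x (Fin.castAdd 112 i))

theorem mu_latt (x : I → ℤ) (b : I) : mu b (latt x) = nu x b := by
  induction b using Fin.addCases with
  | left i => rw [mu_left]; simp only [nu, latt, Fin.addCases_left]
  | right j => rw [mu_right]; simp only [nu, latt, Fin.addCases_right]; push_cast; rfl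

theorem nu_mod (x : I → ℤ) (b : I) :
    nu x b % 2 = (∑ i : Fin 14, g b i * x (Fin.castAdd 112 i)) % 2 := by
  induction b using Fin.addCases with
  | left i =>
    simp only [nu, Fin.addCases_left, Fin.val_castAdd, f_info]
    simp
  | right j =>
    simp only [nu, Fin.addCases_right, Fin.val_natAdd, A]
    omega

theorem lower (k : ℕ) (hk : 1 ≤ k) (x : I → ℤ) (hx : latt x ∈ interior ((k : ℝ) • hull V0)) :
    91 ≤ k := by
  rw [interior_smul_hull (by exact_mod_cast hk)] at hx
  simp only [mu_latt] at hx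
  have h1 : ∀ b, 0 < nu x b := fun b => by exact_mod_cast hx.1 b
  have h2 : ∑ b, nu x b < 2 * (k : ℤ) := by exact_mod_cast hx.2
  have h3 : ∑ b : I, nu x b % 2 ≤ 72 := by
    simp only [nu_mod]
    exact weight_le (fun i => x (Fin.castAdd 112 i))
  have h4 : ∑ _b : I, (2 : ℤ) ≤ ∑ b : I, (nu x b + nu x b % 2) :=
    Finset.sum_le_sum (fun b _ => by have := h1 b; omega)
  rw [Finset.sum_add_distrib] at h4
  simp only [Finset.sum_const, Finset.card_univ, Fintype.card_fin, nsmul_eq_mul] at h4
  omega

/-- information part of the interior point -/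
def xi (i : Fin 14) : ℤ := if (13 : ℕ).testBit i then 1 else 2

/-- an interior lattice point of `91 P` -/
def x0 : I → ℤ :=
  Fin.addCases xi (fun j => (2 - ∑ i : Fin 14, A i j * xi i) / 2)

theorem x0_ok : (∀ b, 0 < nu x0 b) ∧ ∑ b, nu x0 b < 182 := by decide +kernel

theorem upper : latt x0 ∈ interior (((91 : ℕ) : ℝ) • hull V0) := by
  rw [interior_smul_hull (by norm_num)]
  simp only [mu_latt]
  refine ⟨fun b => by exact_mod_cast x0_ok.1 b, ?_⟩
  have : ((∑ b, nu x0 b : ℤ) : ℝ) < ((182 : ℤ) : ℝ) := Int.cast_lt.mpr x0_ok.2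
  push_cast at this ⊢
  linarith

/-- barycentric coordinates of the projection to `ℝ^k` -/
def bary {m k : ℕ} (j : Fin (k + 1)) (z : Fin m ⊕ Fin k → ℝ) : ℝ :=
  Fin.cases (1 - ∑ l, z (Sum.inr l)) (fun l => z (Sum.inr l)) j

theorem bary_sum {m k : ℕ} (z : Fin m ⊕ Fin k → ℝ) : ∑ j, bary j z = 1 := by
  rw [Fin.sum_univ_succ]
  simp [bary]

theorem bary_gen {m k : ℕ} (j j' : Fin (k + 1)) (p : Fin m → ℝ) :
    bary j (Sum.elim p (unitE k j')) = if j' = j then 1 else 0 := by
  induction j using Fin.cases with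
  | zero =>
    induction j' using Fin.cases with
    | zero => simp [bary, unitE, (Fin.succ_ne_zero _).symm]
    | succ l => simp [bary, unitE]
  | succ l => simp [bary, unitE]

theorem bary_nonneg {m k : ℕ} (Q : Fin (k + 1) → Finset (Fin m → ℤ)) (j : Fin (k + 1))
    (z : Fin m ⊕ Fin k → ℝ) (hz : z ∈ cayley m k Q) : 0 ≤ bary j z := by
  have : cayley m k Q ⊆ {z | 0 ≤ bary j z} := by
    apply convexHull_min
    · intro z hz
      simp only [Set.mem_iUnion, Set.mem_image] at hz
      obtain ⟨j', p, _, rfl⟩ := hz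
      change 0 ≤ bary j _
      rw [bary_gen]
      split_ifs <;> norm_num
    · intro x hx y hy a b ha hb hab
      change 0 ≤ bary j _
      change 0 ≤ bary j _ at hx hy
      induction j using Fin.cases with
      | zero =>
        simp only [bary, Fin.cases_zero, Pi.add_apply, Pi.smul_apply, smul_eq_mul,
          Finset.sum_add_distrib, ← Finset.mul_sum] at hx hy ⊢
        nlinarith
      | succ l =>
        simp only [bary, Fin.cases_succ, Pi.add_apply, Pi.smul_apply, smul_eq_mul] at hx hy ⊢
        positivity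
  exact this hz

theorem bary_affine {m k : ℕ} (U : Matrix (Fin m ⊕ Fin k) I ℤ) (t : Fin m ⊕ Fin k → ℤ)
    (j : Fin (k + 1)) : ∃ (u : I → ℤ) (c : ℤ), ∀ x : I → ℝ,
      bary j ((U.map (fun z : ℤ => (z : ℝ))) *ᵥ x + latt t) = ∑ b, (u b : ℝ) * x b + c := by
  induction j using Fin.cases with
  | zero =>
    refine ⟨fun b => -∑ l, U (Sum.inr l) b, 1 - ∑ l, t (Sum.inr l), fun x => ?_⟩
    simp only [bary, Fin.cases_zero, Pi.add_apply, mulVec, dotProduct, map_apply, latt,
      Finset.sum_add_distrib]
    push_cast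
    rw [Finset.sum_comm]
    simp only [neg_mul, Finset.sum_neg_distrib, Finset.sum_mul]
    ring
  | succ l =>
    exact ⟨fun b => U (Sum.inr l) b, t (Sum.inr l), fun x => by
      simp [bary, mulVec, dotProduct, latt]⟩

/-- index of a vertex among the 127 columns -/
def idx : Option I → ℕ
  | none => 126
  | some b => b.val

theorem idx_inj : Function.Injective idx := by
  rintro (_ | a) (_ | b) h <;> simp only [idx] at h
  · rfl
  · have := b.2; omega
  · have := a.2; omega
  · exact congrArg some (Fin.ext h)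

theorem dual_word (u : I → ℤ) (c : ℤ) (i : Fin 14) :
    (∑ a : Option I, (∑ b, u b * W a b + c) * g (idx a) i) % 2 = 0 := by
  have hp := parity_last i
  rw [Fintype.sum_option]
  simp only [W, idx, Pi.zero_apply, mul_zero, Finset.sum_const_zero, zero_add]
  rw [Fin.sum_univ_add (a := 14) (b := 112)]
  simp only [Fin.val_castAdd, Fin.val_natAdd, f_info]
  rw [Finset.sum_eq_single i (by intro b _ hb; simp [hb]) (by simp)]
  have e1 : ∑ b, u b * vert (Fin.castAdd 112 i) b
      = 2 * u (Fin.castAdd 112 i) - ∑ j : Fin 112, u (Fin.natAdd 14 j) * g (14 + j) i := by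
    rw [Fin.sum_univ_add]
    simp only [vert, Fin.addCases_left, Fin.addCases_right, A]
    rw [Finset.sum_eq_single i (by intro b _ hb; simp [hb]) (by simp)]
    simp only [if_true, mul_neg, Finset.sum_neg_distrib]
    ring
  have e2 : ∀ j : Fin 112, ∑ b, u b * vert (Fin.natAdd 14 j) b = u (Fin.natAdd 14 j) := by
    intro j
    rw [Fin.sum_univ_add]
    simp only [vert, Fin.addCases_left, Fin.addCases_right]
    simp
  simp only [e1, e2, if_true, mul_one, add_mul, Finset.sum_add_distrib, ← Finset.mul_sum]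
  generalize ∑ j : Fin 112, u (Fin.natAdd 14 j) * g (14 + j) i = s1
  generalize ∑ j : Fin 112, g (14 + j) i = s2 at hp
  generalize g 126 i = s3 at hp
  have : c * s3 + (2 * u (Fin.castAdd 112 i) - s1 + c + (s1 + c * s2))
      = 2 * u (Fin.castAdd 112 i) + c * (1 + s2 + s3) := by ring
  rw [this]
  obtain ⟨r, hr⟩ : ∃ r, 1 + s2 + s3 = 2 * r := ⟨(1 + s2 + s3) / 2, by omega⟩
  rw [hr, mul_left_comm]
  omega

theorem few (k : ℕ) (h : IsCayley (hull V0) k) : k + 1 ≤ 25 := by
  obtain ⟨m, Q, hQ, U, U', t, _, _, himg⟩ := h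
  choose u c huc using bary_affine U t
  let y : Fin (k + 1) → Option I → ℤ := fun j a => ∑ b, u j b * W a b + c j
  have hy : ∀ j a, bary j ((U.map (fun z : ℤ => (z : ℝ))) *ᵥ latt (W a) + latt t) = y j a := by
    intro j a
    rw [huc]
    simp [y, latt]
  have y0 : ∀ j a, 0 ≤ y j a := by
    intro j a
    have := bary_nonneg Q j _ (himg ▸ Set.mem_image_of_mem _ (W_mem a))
    rw [hy] at this
    exact_mod_cast this
  have y1 : ∀ a, ∑ j, y j a = 1 := by
    intro a
    have := bary_sum ((U.map (fun z : ℤ => (z : ℝ))) *ᵥ latt (W a) + latt t)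
    simp only [hy] at this
    exact_mod_cast this
  have y2 : ∀ j a, y j a = if y j a = 1 then 1 else 0 := by
    intro j a
    have h1 : y j a ≤ ∑ j, y j a :=
      Finset.single_le_sum (f := fun j => y j a) (fun j _ => y0 j a) (Finset.mem_univ j)
    have h2 := y0 j a
    rw [y1] at h1
    split_ifs <;> omega
  have five : ∀ j, (5 : ℤ) ≤ ∑ a, y j a := by
    intro j
    let S : Finset (Option I) := Finset.univ.filter (fun a => y j a = 1)
    have hne : S.Nonempty := by
      by_contra hc
      have hz : ∀ a, y j a = 0 := by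
        intro a
        rw [y2 j a, if_neg]
        intro h
        exact hc ⟨a, by simp [S, h]⟩
      have hsub : hull V0 ⊆ {x | ∑ b, (u j b : ℝ) * x b + c j = 0} := by
        apply convexHull_min
        · rintro _ ⟨v, hv, rfl⟩
          simp only [V0, Finset.coe_image, Set.mem_image] at hv
          obtain ⟨a, _, rfl⟩ := hv
          change ∑ b, (u j b : ℝ) * latt (W a) b + c j = 0
          rw [← huc, hy, hz]
          simp
        · intro x hx z hz a b ha hb hab
          simp only [Set.mem_ofPred_eq, Pi.add_apply, Pi.smul_apply, smul_eq_mul, mul_add,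
            Finset.sum_add_distrib, mul_left_comm _ a, mul_left_comm _ b,
            ← Finset.mul_sum] at hx hz ⊢
          linear_combination a * hx + b * hz - (c j : ℝ) * hab
      obtain ⟨q, hq⟩ := hQ j
      have hz' : Sum.elim (latt q) (unitE k j) ∈ cayley m k Q := by
        apply subset_convexHull
        simp only [Set.mem_iUnion, Set.mem_image]
        exact ⟨j, latt q, subset_convexHull _ _ ⟨q, hq, rfl⟩, rfl⟩
      rw [← himg] at hz'
      obtain ⟨x, hx, e⟩ := hz'
      have h1 := huc j x
      have h2 : ∑ b, (u j b : ℝ) * x b + c j = 0 := hsub hx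
      simp only at e
      rw [e, bary_gen, h2] at h1
      simp at h1
    have h5 := dual_dist (S.image idx) (by
        intro a ha
        obtain ⟨b, _, rfl⟩ := Finset.mem_image.mp ha
        cases b with
        | none => simp [idx]
        | some b => have := b.2; simp only [idx]; omega) (hne.image _) (by
        intro i hi
        rw [Finset.sum_image (fun a _ b _ h => idx_inj h)]
        have := dual_word (u j) (c j) ⟨i, hi⟩
        change (∑ a : Option I, y j a * g (idx a) i) % 2 = 0 at this
        rw [← this, Finset.sum_filter]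
        congr 1
        apply Finset.sum_congr rfl
        intro a _
        conv_rhs => rw [y2 j a]
        split_ifs <;> simp)
    rw [Finset.card_image_of_injective _ idx_inj] at h5
    have e : ∑ a, y j a = (S.card : ℤ) := by
      rw [Finset.card_filter]
      push_cast
      exact Finset.sum_congr rfl (fun a _ => y2 j a)
    rw [e]
    exact_mod_cast h5
  have h1 : ∑ _j : Fin (k + 1), (5 : ℤ) ≤ ∑ j, ∑ a, y j a := Finset.sum_le_sum (fun j _ => five j)
  rw [Finset.sum_comm] at h1
  simp only [y1, Finset.sum_const, Finset.card_univ, Fintype.card_fin, Fintype.card_option,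
    nsmul_eq_mul] at h1
  omega

theorem result :
    ∃ (d s : ℕ) (V : Finset (Fin d → ℤ)), 1 ≤ s ∧ (interior (hull V)).Nonempty ∧
      HasDegree (hull V) s ∧ (17 * (s : ℝ) - 4) / 6 < d ∧
      ∀ k : ℕ, IsCayley (hull V) k → ((k + 1 : ℕ) : ℤ) < d + 1 - ⌊(17 * (s : ℝ) - 4) / 6⌋ := by
  refine ⟨14 + 112, 36, V0, by norm_num, ?_, ⟨by norm_num, ⟨by norm_num, x0, upper⟩, ?_⟩,
    by norm_num, ?_⟩
  · refine ⟨(91 : ℝ)⁻¹ • latt x0, ?_⟩
    have h := upper
    rw [interior_smul_hull (by norm_num)] at h
    rw [← one_smul ℝ (hull V0), interior_smul_hull (by norm_num)]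
    simp only [map_smul, smul_eq_mul, ← Finset.mul_sum]
    refine ⟨fun b => mul_pos (by norm_num) (h.1 b), ?_⟩
    have := h.2
    push_cast at this
    linarith
  · rintro k ⟨hk, x, hx⟩
    exact lower k hk x hx
  · intro k hk
    have h := few k hk
    have e : ⌊(17 * ((36 : ℕ) : ℝ) - 4) / 6⌋ = 101 := by
      rw [Int.floor_eq_iff]
      norm_num
    rw [e]
    omega

end Pool.Agent.Results.MP_c7d842_co.Counter
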